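import Pool.Agent.R503.HD.Final

/-!
# Codimension two: for almost all degrees only complete intersections are numerically possible

Let `X` be a smooth subvariety of codimension two of `ℙ^N`, `N ≥ 7`, of degree `d`. It is
subcanonical (Barth-Larsen), `ω_X = 𝒪_X(k)`, and there is a vector bundle of rank two on `ℙ^N` with the
Chern classes `c₁ = k + N + 1`, `c₂ = d` (Serre). The normal bundle of `X` twisted by `-1` is globally
generated, so `0 < c₁ ≤ d + 1`. By the theorem of Riemann-Roch the Riemann-Roch conditions on `ℙ^N`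
hold for `T² - c₁ T + c₂`.

We show: for all `A` and `U` and all sufficiently large `N`, `1 ≤ X ≤ N ^ A`: (1) at most
`X / (log N)^U` pairs `(k, d)`, `d ≤ X`, satisfy these conditions and are not the pairs
`(a + b - N - 1, a b)`, `a, b ≥ 1`, of a complete intersection; (2) for all but at most
`X / (log N)^U` integers `d` between `1` and `X` all `k` satisfying these conditions are those of
complete intersections; (3) for all but at most `X / (log N)^U` primes `p ≤ X` the only possible value
of `k` is `p - N`, the value of hypersurfaces of degree `p` in a hyperplane.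

Proof. `D = c₁² - 4 d` is a square modulo all odd primes `p < N`; so it is a perfect square (then `k` is
that of a complete intersection), or `D = u d' f²` with `u ∈ {1, -1, 2, -2}` and `d'` in a set of at
most a power of `log N` integers larger than any given power of `log N` (large sieve inequality and
Bombieri-Vinogradov, as in `MP_b01859_ag.AlmostAllChernClasses`). For given `u`, `d'`, `f` the possible
`c₁` are in an interval of length at most `4 X / (f √d')`, and `f ≤ (X + 1) / √d'`; the sum over `f` is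
small.
-/

set_option autoImplicit false

open Finset Polynomial

namespace Pool.Agent.Results.MP_014caa_ag.AlmostAllDegrees

open Pool.Agent.R920.CH

/-- The integers `k` and `d > 0` satisfy `0 < k + N + 1 ≤ d + 1`, and `c₁ = k + N + 1`, `c₂ = d` satisfy
the Riemann-Roch conditions on `ℙ^N`. -/
def Possible (N : ℕ) (k d : ℤ) : Prop :=
  0 < d ∧ 0 < k + N + 1 ∧ k + N + 1 ≤ d + 1 ∧ RiemannRoch N (X ^ 2 - C (k + N + 1) * X + C d)

/-- `k` and `d` are those of a complete intersection of hypersurfaces of degrees `a` and `b`. -/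
def IsCI (N : ℕ) (k d : ℤ) : Prop := ∃ a b : ℤ, 0 < a ∧ 0 < b ∧ k = a + b - N - 1 ∧ d = a * b

open Classical in
/-- **Almost all degrees.** -/
theorem result (A U : ℕ) : ∃ N₀ : ℕ, ∀ N : ℕ, N₀ ≤ N → ∀ X : ℕ, 1 ≤ X → X ≤ N ^ A →
    (∀ S : Finset (ℤ × ℤ), (∀ s ∈ S, Possible N s.1 s.2 ∧ s.2 ≤ X ∧ ¬ IsCI N s.1 s.2) →
      (S.card : ℝ) * Real.log N ^ U ≤ X) ∧
    (((Icc 1 X).filter fun d : ℕ => ∃ k : ℤ, Possible N k d ∧ ¬ IsCI N k d).card : ℝ) *
      Real.log N ^ U ≤ X ∧
    (((Icc 1 X).filter fun p : ℕ => p.Prime ∧ ∃ k : ℤ, Possible N k p ∧ k ≠ p - N).card : ℝ) *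
      Real.log N ^ U ≤ X := by
  obtain ⟨N₁, h₁⟩ := Pool.Agent.R503.HD.pairs A U
  obtain ⟨N₂, h₂⟩ := Pool.Agent.R503.HD.degrees A U
  exact ⟨max N₁ N₂, fun N hN X hX hXN => ⟨h₁ N ((le_max_left _ _).trans hN) X hX hXN,
    h₂ N ((le_max_right _ _).trans hN) X hX hXN⟩⟩

end Pool.Agent.Results.MP_014caa_ag.AlmostAllDegrees
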