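import Pool.Agent.R852.BC.Fin

set_option autoImplicit false

/-!
# The degree of smooth subvarieties of codimension two in large projective spaces

Let `X ⊂ ℙ^N` be a smooth subvariety of codimension two and degree `d`, `N ≥ 7`. Then `X` is
subcanonical, `ω_X = O_X(k)`, and there is a vector bundle `E` of rank two on `ℙ^N` with the Chern
classes `c₁ = k + N + 1` and `c₂ = d` whose restriction to `X` is the normal bundle (Serre); `X` is a
complete intersection of hypersurfaces of degrees `a` and `b` if and only if `E = O(a) ⊕ O(b)`. The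
theorem of Riemann-Roch gives the Riemann-Roch conditions for `T² - (k + N + 1) T + d`. Moreover
`N_X(-1)`, a quotient of `T_ℙ(-1)`, is globally generated; so its Chern classes `c₁ - 2` and
`d - c₁ + 1` are not negative, and this gives `0 < k + N + 1 ≤ d + 1`.

We show that, for all real numbers `A` and `ε > 0`, and all `N ≥ N₀(A, ε)`: if

  `d ≤ N ^ (2 √e - ε)`,

or if `d ≤ N ^ A` and `(k + N + 1)² - 4 d = f s²` with integers `f`, `s`, `|f| ≤ N ^ (4 √e - ε)`,
then there are integers `a, b > 0` with `d = a b` and `k = a + b - N - 1`: the variety `X` has the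
degree and the canonical class of a complete intersection of hypersurfaces of degrees `a`, `b`.
Here `2 √e = 3.29…`.

The proof. By the Riemann-Roch conditions the discriminant `D = (k + N + 1)² - 4 d` is a square modulo
all odd primes `p < N` (this is in the work of helper920). If `D` is not a square, the real character
`χ` of a suitable modulus `m ∣ 8 f` defined by `f` is therefore equal to `1` at all primes `p < N`
which do not divide `2 D`. We prove Burgess' bound for the sums of real characters with arbitrary
moduli over intervals of length at least `m ^ (1/4 + η)`, remove the primes dividing `2 D`, and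
conclude with the method of Vinogradov.
-/

namespace Pool.Agent.Results.MP_014caa_ag.BurgessDegree

open Pool.Agent.R920.CH Pool.Agent.R852.BC Filter

/-- **The degree and the canonical class in codimension two.** -/
theorem result (A ε : ℝ) (hε : 0 < ε) : ∃ N₀ : ℕ, ∀ N ≥ N₀, ∀ k d : ℤ, 0 < d →
    0 < k + N + 1 → k + N ≤ d → RiemannRoch N (poly2 (k + N + 1) d) →
    ((d : ℝ) ≤ (N : ℝ) ^ (2 * Real.exp (1 / 2) - ε) ∨
      ((d : ℝ) ≤ (N : ℝ) ^ A ∧ ∃ f s : ℤ, (k + N + 1) ^ 2 - 4 * d = f * s ^ 2 ∧
        (|f| : ℤ) ≤ (N : ℝ) ^ (4 * Real.exp (1 / 2) - ε))) →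
    ∃ a b : ℤ, 0 < a ∧ 0 < b ∧ d = a * b ∧ k = a + b - N - 1 := by
  have h4 : ∀ᶠ N : ℕ in atTop, (4 : ℝ) ≤ (N : ℝ) :=
    tendsto_natCast_atTop_atTop.eventually (eventually_ge_atTop (4 : ℝ))
  refine eventually_atTop.mp ?_
  filter_upwards [codim_two ε hε, rank_two (2 * A + 1) ε hε, h4]
    with N h1 h2 h4 k d hd hk hkd hRR hcase
  rcases hcase with hdN | ⟨hdN, f, s, hfs, hf⟩
  · exact h1 k d hd hk hkd hRR hdN
  · have hN0 : (0 : ℝ) < N := by linarith
    have hdr : (1 : ℝ) ≤ d := by exact_mod_cast hd
    have hDabs : |(k + N + 1) ^ 2 - 4 * d| ≤ 4 * d ^ 2 := by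
      rw [abs_le]
      constructor
      · nlinarith
      · nlinarith
    obtain ⟨a, b, hab, hab2⟩ := h2 (k + N + 1) d f s hRR hfs (by
      calc ((|(k + N + 1) ^ 2 - 4 * d| : ℤ) : ℝ) ≤ ((4 * d ^ 2 : ℤ) : ℝ) := by
            exact_mod_cast hDabs
        _ = 4 * (d : ℝ) ^ 2 := by push_cast; ring
        _ ≤ N * ((N : ℝ) ^ A) ^ 2 := by gcongr
        _ = (N : ℝ) ^ (2 * A + 1) := by
            rw [← Real.rpow_natCast ((N : ℝ) ^ _), ← Real.rpow_mul hN0.le, Nat.cast_ofNat]
            nth_rewrite 1 [← Real.rpow_one (N : ℝ)]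
            rw [← Real.rpow_add hN0]
            congr 1
            ring) hf
    have hpos : 0 < a ∧ 0 < b := by
      rcases lt_trichotomy a 0 with h | h | h
      · have : b < 0 := by
          by_contra hb
          push Not at hb
          nlinarith
        omega
      · rw [h, zero_mul] at hab2
        omega
      · refine ⟨h, ?_⟩
        by_contra hb
        push Not at hb
        nlinarith
    exact ⟨a, b, hpos.1, hpos.2, hab2, by linarith⟩

end Pool.Agent.Results.MP_014caa_ag.BurgessDegree
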