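import Pool.Agent.R852.FC.Fld

set_option autoImplicit false

/-!
# The field generated by the Chern roots of a smooth subvariety of small codimension

Let `X ⊂ ℙ^N` be a smooth subvariety of codimension `r`, and let `2 n ≤ N - 2 r + 1`. By the theorems
of Barth and Larsen the inclusion of `ℙ^n` in `ℙ^N` is homotopic to a map `ℙ^n → X`. Let `E` be the
pull-back of the normal bundle of `X`; let `c_i` be its Chern classes (`c_r` is the degree of `X`, and
`c₁ - N - 1` gives the canonical class) and `P = T^r - c₁ T^(r-1) + … ± c_r`. The theorem of
Riemann-Roch gives the Riemann-Roch conditions for `P` on `ℙ^n`. If `X` is a complete intersection of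
hypersurfaces of degrees `a_i`, then `P = ∏ (T - a_i)`: the Chern roots are integers.

Let `A`, `ε > 0` be real numbers. We show for all `n ≥ n₀(r, A, ε)` and all polynomials `P` as above
which satisfy the Riemann-Roch conditions and have coefficients `|c_i| ≤ n ^ A`: let `L ⊂ ℂ` be the
field which is generated by the roots of `P`.

* Every algebraic integer `α` in `L` which is not a rational integer has a conjugate `β` with
  `|β| > n ^ (1 - ε)`.
* Every subfield `K` of `L` of degree `d > 1` over `ℚ` (so `L` itself, if `L ≠ ℚ`, and the fields
  generated by one root which is not rational) has a discriminant with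
  `|disc K| > n ^ ((2 - ε) (d - 1))`.

As the discriminant of an irreducible integral polynomial is a square times the discriminant of
the field generated by a root, the same lower bound holds for the discriminants of the irreducible
factors of `P` of degree `d > 1`.

The proof. By the Riemann-Roch conditions `P` splits modulo the primes `p` with `r < p ≤ n + 1 - r`
(this is in the work of helper920). If `p` does not divide the product `B` of the differences of the
distinct roots, the ring of integers of `L` has a homomorphism to the `p`-adic integers (Hensel). For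
`α` as above let `x` run through the `M` numbers `k α' + s`, where `1 ≤ k ≤ b`, `α'` is a conjugate of
`α`, and `|s| ≤ H`. These numbers are different. The product of all their differences is a rational
integer, and divisible by the part of `(0! 1! ⋯ (M - 1)!)²` which is composed of the primes `p < M`
with `p > r` which do not divide `B`. As `b` may be taken as a small power of `n`, this gives the
first statement; the second one follows with Minkowski's theorem.
-/

open Polynomial NumberField Module

namespace Pool.Agent.Results.MP_014caa_ag.FieldOfChernRoots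

open Pool.Agent.R920.CH

/-- **The field of Chern roots.** -/
theorem result (r : ℕ) (A ε : ℝ) (hε : 0 < ε) : ∃ n₀ : ℕ, ∀ n ≥ n₀, ∀ P : ℤ[X], P.Monic →
    P.natDegree = r → RiemannRoch n P → (∀ i, (|P.coeff i| : ℤ) ≤ (n : ℝ) ^ A) →
    (∀ α ∈ IntermediateField.adjoin ℚ {u : ℂ | u ∈ rootsOf P}, IsIntegral ℤ α →
      (∀ m : ℤ, α ≠ m) → ∃ β : ℂ, aeval β (minpoly ℚ α) = 0 ∧ (n : ℝ) ^ (1 - ε) < ‖β‖) ∧
    (∀ (K : Type) [Field K] [NumberField K] (φ : K →+* ℂ),
      (∀ x, φ x ∈ IntermediateField.adjoin ℚ {u : ℂ | u ∈ rootsOf P}) → 1 < finrank ℚ K →
      (n : ℝ) ^ ((2 - ε) * ((finrank ℚ K : ℝ) - 1)) < |(discr K : ℝ)|) := by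
  obtain ⟨n₁, h₁⟩ := Filter.eventually_atTop.mp (Pool.Agent.R852.FC.houseC r A ε hε)
  obtain ⟨n₂, h₂⟩ := Filter.eventually_atTop.mp (Pool.Agent.R852.FC.discrC r A ε hε)
  exact ⟨max n₁ n₂, fun n hn P hP hr hRR hA =>
    ⟨h₁ n (le_trans (le_max_left _ _) hn) P hP hr hRR hA,
      h₂ n (le_trans (le_max_right _ _) hn) P hP hr hRR hA⟩⟩

end Pool.Agent.Results.MP_014caa_ag.FieldOfChernRoots
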