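import Pool.Agent.R920.CH.Mod

/-!
# Smooth subvarieties of small codimension are complete intersections modulo many primes

Let `E` be a (topological or algebraic) complex vector bundle of rank `r` on `ℙ^n`, with the Chern
classes `c₁, …, c_r`, and let `P = T ^ r - c₁ T ^ (r - 1) + … ± c_r`. The theorem of Riemann-Roch
implies the Riemann-Roch conditions for `P`. We show that there are integers `a₁, …, a_r` such that
`P` is congruent to `(T - a₁) ⋯ (T - a_r)` modulo the product `M` of all primes `p` with
`r < p ≤ n + 1 - r`: `E` has the Chern classes of a direct sum of line bundles modulo `M`. The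
logarithm of `M` is asymptotically equal to `n`.

Let `X` be a nonsingular subvariety of `ℙ^N` of codimension `r`, and `n` the integral part of
`(N - 2 r + 1) / 2`. By the theorems of Barth and Larsen the inclusion of a linear subspace `ℙ^n` is
homotopic to a map to `X`, and for `r ≤ n` the theorem applies to the pull-back of the normal bundle
of `X`: there are integers `a_i` such that the Chern classes of `X`, its degree and its canonical
class are congruent modulo `M` to those of a complete intersection of hypersurfaces of degrees
`a₁, …, a_r` (`deg X ≡ a₁ ⋯ a_r`, `K ≡ a₁ + … + a_r - N - 1`). For `r = 2` and `N ≥ 7` the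
normal bundle is the restriction of a bundle on `ℙ^N` (Serre), and one can take `n = N`.
-/

open Polynomial

namespace Pool.Agent.Results.MP_014caa_ag.ModuloPrimes

open Pool.Agent.R920.CH

/-- **The Chern polynomial splits modulo the product of the primes between `r` and `n + 1 - r`.** -/
theorem result (n r : ℕ) (P : ℤ[X]) (hP : P.Monic) (hr : P.natDegree = r)
    (hRR : RiemannRoch n P) :
    ∃ a : Fin r → ℤ, ∀ k, (primeProd n r : ℤ) ∣ (P - ∏ i, (X - C (a i))).coeff k :=
  splits_prod P hP hr hRR

end Pool.Agent.Results.MP_014caa_ag.ModuloPrimes
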